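import Pool.Agent.Y782.WU.Stm

/-!
Project WU (helper782), job WU-MS12: measurability of the killed walk kernels and of the nested
partitions (`S_MS1`, `S_MS2`).
-/

set_option autoImplicit false

open MeasureTheory ProbabilityTheory Filter Topology
open scoped ENNReal NNReal BigOperators unitInterval

namespace Pool.Agent.Y498.WU

open Pool.Agent.Y782.WU

variable {V : Type}

theorem meas_adj (x y : V) : Measurable (fun g : SimpleGraph V => g.Adj x y) := by
  have h : Measurable (fun (g : SimpleGraph V) (x y : V) => g.Adj x y) := comap_measurable _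
  exact (measurable_pi_apply y).comp ((measurable_pi_apply x).comp h)

theorem measurable_graph {α : Type*} [MeasurableSpace α] {f : α → SimpleGraph V}
    (h : ∀ x y, Measurable (fun a => (f a).Adj x y)) : Measurable f := by
  rw [measurable_comap_iff]
  exact measurable_pi_iff.2 fun x => measurable_pi_iff.2 fun y => h x y

open Classical in
theorem dgr_eq (g : SimpleGraph V) (v : V) :
    (dgr g v : ℝ≥0∞) = if (∑' w, if g.Adj v w then (1 : ℝ≥0∞) else 0) = ⊤ then 0
      else ∑' w, if g.Adj v w then (1 : ℝ≥0∞) else 0 := by
  have h1 : (∑' w, if g.Adj v w then (1 : ℝ≥0∞) else 0) = ((g.neighborSet v).encard : ℝ≥0∞) := by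
    rw [← ENNReal.tsum_set_one, tsum_subtype (g.neighborSet v) (fun _ => (1 : ℝ≥0∞))]
    refine tsum_congr fun w => ?_
    by_cases hw : g.Adj v w
    · rw [if_pos hw, Set.indicator_of_mem (by simpa using hw)]
    · rw [if_neg hw, Set.indicator_of_notMem (by simpa using hw)]
  rw [h1]
  unfold dgr
  by_cases hf : (g.neighborSet v).Finite
  · rw [if_neg]
    · rw [← hf.cast_ncard_eq]
      simp
    · rw [← hf.cast_ncard_eq]
      simp
  · have h2 : (g.neighborSet v).encard = ⊤ := Set.encard_eq_top_iff.2 hf
    rw [if_pos (by rw [h2]; simp), Set.Infinite.ncard hf]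
    simp

theorem meas_dgr [Countable V] (v : V) : Measurable (fun g : SimpleGraph V => (dgr g v : ℝ≥0∞)) := by
  classical
  have h : Measurable (fun g : SimpleGraph V => ∑' w, if g.Adj v w then (1 : ℝ≥0∞) else 0) := by
    refine Measurable.tsum fun w => ?_
    exact Measurable.ite (measurableSet_setOfPred.2 (meas_adj v w)) measurable_const measurable_const
  have e : (fun g : SimpleGraph V => (dgr g v : ℝ≥0∞)) = fun g =>
      if (∑' w, if g.Adj v w then (1 : ℝ≥0∞) else 0) = ⊤ then 0
      else ∑' w, if g.Adj v w then (1 : ℝ≥0∞) else 0 := by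
    funext g
    convert dgr_eq g v
  rw [e]
  exact Measurable.ite (h (measurableSet_singleton ⊤)) measurable_const h

theorem meas_stp [Countable V] (v w : V) : Measurable (fun g : SimpleGraph V => stp g v w) := by
  unfold stp
  exact Measurable.ite (measurableSet_setOfPred.2 (meas_adj v w)) (meas_dgr v).inv measurable_const

theorem meas_pn [Countable V] (n : ℕ) : ∀ v w : V, Measurable (fun g : SimpleGraph V => pn g n v w) := by
  induction n with
  | zero =>
    intro v w
    simp only [pn]
    exact measurable_const
  | succ n ih =>
    intro v w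
    simp only [pn]
    exact Measurable.tsum fun z => (meas_stp v z).mul (ih z w)

theorem meas_ab [Countable V] (k : ℕ) (v w : V) : Measurable (fun g : SimpleGraph V => ab g k v w) := by
  unfold ab
  exact Measurable.tsum fun n => (meas_pn n v w).const_mul _

theorem meas_qq [Countable V] (k : ℕ) (v : V) : Measurable (fun g : SimpleGraph V => qq g k v) := by
  unfold qq l1
  refine Measurable.tsum fun w => ?_
  refine Measurable.ite (measurableSet_setOfPred.2 (meas_adj v w)) ?_ measurable_const
  refine Measurable.tsum fun c => ?_
  exact ((meas_ab k v c).sub (meas_ab k w c)).add ((meas_ab k w c).sub (meas_ab k v c))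

theorem ms1 : S_MS1 := by
  intro V _ k v w
  exact ⟨meas_ab k v w, meas_qq k v⟩

theorem meas_er : Measurable er := by
  unfold er
  exact (Real.measurable_log.comp measurable_subtype_coe).neg

theorem meas_win [Countable V] (k m : ℕ) (v c : V) :
    Measurable (fun p : SimpleGraph V × (V → ℕ → I) =>
      win (ab p.1 k v) (fun c => er (p.2 c m)) c) := by
  unfold win
  have ha : ∀ c : V, Measurable (fun p : SimpleGraph V × (V → ℕ → I) => (ab p.1 k v c).toReal) :=
    fun c => ((meas_ab k v c).comp measurable_fst).ennreal_toReal
  have he : ∀ c : V, Measurable (fun p : SimpleGraph V × (V → ℕ → I) => er (p.2 c m)) :=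
    fun c => meas_er.comp ((measurable_pi_apply m).comp ((measurable_pi_apply c).comp measurable_snd))
  refine Measurable.and (measurableSet_setOfPred.1 (measurableSet_lt measurable_const (ha c))) ?_
  refine Measurable.forall fun c' => ?_
  refine Measurable.imp measurable_const ?_
  exact measurableSet_setOfPred.1 (measurableSet_lt ((ha c').mul (he c)) ((ha c).mul (he c')))

theorem meas_rel [Countable V] (ks : ℕ → ℕ) (n : ℕ) (v w : V) :
    Measurable (fun p : SimpleGraph V × (V → ℕ → I) => p.1.Adj v w ∧
      ∀ m ≥ n, sm (ab p.1 (ks m) v) (ab p.1 (ks m) w) (fun c => er (p.2 c m))) := by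
  refine Measurable.and ((meas_adj v w).comp measurable_fst) ?_
  refine Measurable.forall fun m => ?_
  refine Measurable.imp measurable_const ?_
  unfold sm
  exact Measurable.exists fun c => (meas_win (ks m) m v c).and (meas_win (ks m) m w c)

theorem ms2 : S_MS2 := by
  intro V _ ks n
  refine measurable_graph fun x y => ?_
  cases n with
  | zero =>
    simp only [Hg, SimpleGraph.bot_adj]
    exact measurable_const
  | succ n =>
    simp only [Hg, SimpleGraph.fromRel_adj]
    exact Measurable.and measurable_const ((meas_rel ks n x y).or (meas_rel ks n y x))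

end Pool.Agent.Y498.WU
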